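import Mathlib

set_option autoImplicit false

namespace Pool.Agent.Lib.helper6

open Matrix

/-- a symmetric diagonally dominant matrix has a nonnegative quadratic form -/
theorem quad_nonneg_of_dom {n : Type} [Fintype n] [DecidableEq n] (R : Matrix n n ℝ)
    (hs : ∀ i j, R i j = R j i) (hd : ∀ i, ∑ j, |R i j| ≤ 2 * R i i) (x : n → ℝ) :
    0 ≤ x ⬝ᵥ R *ᵥ x := by
  have h1 : ∀ i j, (if i = j then 2 * R i i * x i ^ 2 else 0)
      - (|R i j| * x i ^ 2 / 2 + |R j i| * x j ^ 2 / 2) ≤ x i * (R i j * x j) := by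
    intro i j
    split_ifs with h
    · subst h
      nlinarith [mul_le_mul_of_nonneg_right (le_abs_self (R i i)) (sq_nonneg (x i))]
    · rw [hs j i]
      rcases abs_cases (R i j) with ⟨e, h⟩ | ⟨e, h⟩ <;> rw [e]
      · nlinarith [mul_nonneg h (sq_nonneg (x i + x j))]
      · nlinarith [mul_nonneg (neg_pos.mpr h).le (sq_nonneg (x i - x j))]
  have h2 : x ⬝ᵥ R *ᵥ x = ∑ i, ∑ j, x i * (R i j * x j) := by
    simp [dotProduct, mulVec, Finset.mul_sum]
  rw [h2]
  refine le_trans ?_ (Finset.sum_le_sum fun i _ => Finset.sum_le_sum fun j _ => h1 i j)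
  simp only [Finset.sum_sub_distrib, Finset.sum_add_distrib, Finset.sum_ite_eq, Finset.mem_univ,
    if_true]
  rw [Finset.sum_comm (f := fun i j => |R j i| * x j ^ 2 / 2), ← Finset.sum_add_distrib,
    ← Finset.sum_sub_distrib]
  refine Finset.sum_nonneg fun i _ => ?_
  rw [← Finset.sum_div, ← Finset.sum_mul]
  nlinarith [mul_le_mul_of_nonneg_right (hd i) (sq_nonneg (x i))]

/-- integer certificate: M minus a Gram matrix is diagonally dominant -/
theorem quad_nonneg_of_cert {n : Type} [Fintype n] [DecidableEq n] (M B : Matrix n n ℤ)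
    (hs : ∀ i j, M i j = M j i)
    (hd : ∀ i, ∑ j, |M i j - ∑ k, B k i * B k j| ≤ 2 * (M i i - ∑ k, B k i * B k i))
    (x : n → ℝ) : 0 ≤ x ⬝ᵥ (M.map (Int.cast : ℤ → ℝ)) *ᵥ x := by
  let B' : Matrix n n ℝ := B.map Int.cast
  have h := quad_nonneg_of_dom (M.map (Int.cast : ℤ → ℝ) - B'ᵀ * B')
    (fun i j => by simp [Matrix.mul_apply, hs i j, mul_comm])
    (fun i => by
      have : ((∑ j, |M i j - ∑ k, B k i * B k j| : ℤ) : ℝ) ≤
        ((2 * (M i i - ∑ k, B k i * B k i) : ℤ) : ℝ) := by exact_mod_cast hd i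
      simpa [Matrix.mul_apply, B'] using this) x
  rw [sub_mulVec, dotProduct_sub, ← mulVec_mulVec, dotProduct_mulVec x B'ᵀ, vecMul_transpose] at h
  have : 0 ≤ (B' *ᵥ x) ⬝ᵥ (B' *ᵥ x) := Finset.sum_nonneg fun i _ => mul_self_nonneg _
  linarith

end Pool.Agent.Lib.helper6
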