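import Mathlib

set_option autoImplicit false

namespace Pool.Agent.Lib.helper6

/-- certify the graph distance by an explicit function -/
theorem dist_eq_of_cert {V : Type*} (G : SimpleGraph V) (d : V → V → ℕ)
    (h0 : ∀ u, d u u = 0)
    (h1 : ∀ u v w, G.Adj v w → d u w ≤ d u v + 1)
    (h2 : ∀ u v, u = v ∨ ∃ w, G.Adj w v ∧ d u w + 1 = d u v) (u v : V) :
    G.Reachable u v ∧ G.dist u v = d u v := by
  have up : ∀ n v, d u v = n → ∃ p : G.Walk u v, p.length = n := by
    intro n
    induction n with
    | zero =>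
      intro v hv
      rcases h2 u v with rfl | ⟨w, _, hw⟩
      · exact ⟨SimpleGraph.Walk.nil, rfl⟩
      · omega
    | succ n ih =>
      intro v hv
      rcases h2 u v with rfl | ⟨w, ha, hw⟩
      · rw [h0] at hv; omega
      · obtain ⟨p, hp⟩ := ih w (by omega)
        exact ⟨p.concat ha, by simp [hp]⟩
  have low : ∀ (a b : V) (p : G.Walk a b), d u b ≤ d u a + p.length := by
    intro a b p
    induction p with
    | nil => simp
    | cons h p ih =>
      have := h1 u _ _ h
      simp only [SimpleGraph.Walk.length_cons]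
      omega
  obtain ⟨p, hp⟩ := up _ v rfl
  refine ⟨⟨p⟩, le_antisymm (hp ▸ SimpleGraph.dist_le p) ?_⟩
  obtain ⟨q, hq⟩ := (SimpleGraph.Walk.reachable p).exists_walk_length_eq_dist
  have := low u v q
  rw [h0] at this
  omega

end Pool.Agent.Lib.helper6
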