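import Mathlib

set_option autoImplicit false

namespace Pool.Agent.Lib.helper6

open Matrix Unitary

/-- the rank of `A - c` counts the eigenvalues different from `c` -/
theorem rank_sub_smul_one {n : Type} [Fintype n] [DecidableEq n] {A : Matrix n n ℝ}
    (hA : A.IsHermitian) (c : ℝ) :
    (A - c • (1 : Matrix n n ℝ)).rank
      = (Finset.univ.filter (fun j => hA.eigenvalues₀ j ≠ c)).card := by
  have h1 : A - c • (1 : Matrix n n ℝ) = conjStarAlgAut ℝ _ hA.eigenvectorUnitary
      (diagonal (fun i => hA.eigenvalues i - c)) := by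
    have h2 : (diagonal (fun i => hA.eigenvalues i - c) : Matrix n n ℝ)
        = diagonal (RCLike.ofReal ∘ hA.eigenvalues) - c • (1 : Matrix n n ℝ) := by
      ext i j
      by_cases h : i = j
      · subst h; simp
      · simp [h]
    rw [h2, map_sub, map_smul, map_one, ← hA.spectral_theorem]
  have h3 : (A - c • (1 : Matrix n n ℝ)).rank
      = (diagonal (fun i => hA.eigenvalues i - c) : Matrix n n ℝ).rank := by
    rw [h1, conjStarAlgAut_apply, ← coe_star]
    simp [-isUnit_iff_ne_zero, -coe_star, rank_diagonal]
  rw [h3, rank_diagonal, Fintype.card_subtype]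
  refine Finset.card_bij (fun i _ => (Fintype.equivOfCardEq (Fintype.card_fin _)).symm i) ?_ ?_ ?_
  · intro i hi
    simp only [Finset.mem_filter, Finset.mem_univ, true_and] at hi ⊢
    exact fun h => hi (sub_eq_zero.mpr h)
  · intro a _ b _ h
    exact Equiv.injective _ h
  · intro j hj
    refine ⟨Fintype.equivOfCardEq (Fintype.card_fin _) j, ?_, by simp⟩
    simp only [Finset.mem_filter, Finset.mem_univ, true_and] at hj ⊢
    intro h
    apply hj
    have := sub_eq_zero.mp h
    simpa [Matrix.IsHermitian.eigenvalues] using this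

/-- if `A - c` has rank at most `j`, the `j`-th largest eigenvalue (from `0`) is at most `c` -/
theorem eigenvalues₀_le_of_rank {n : Type} [Fintype n] [DecidableEq n] {A : Matrix n n ℝ}
    (hA : A.IsHermitian) (c : ℝ) (j : Fin (Fintype.card n))
    (h : (A - c • (1 : Matrix n n ℝ)).rank ≤ j.val) : hA.eigenvalues₀ j ≤ c := by
  by_contra hc
  rw [rank_sub_smul_one hA] at h
  have hsub : Finset.Iic j ⊆ Finset.univ.filter (fun i => hA.eigenvalues₀ i ≠ c) := by
    intro i hi
    have := hA.eigenvalues₀_antitone (Finset.mem_Iic.mp hi)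
    simp only [Finset.mem_filter, Finset.mem_univ, true_and]
    intro h'
    exact hc (h' ▸ this)
  have := Finset.card_le_card hsub
  rw [Fin.card_Iic] at this
  omega

end Pool.Agent.Lib.helper6
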